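import Pool.Agent.H89.MT.Targets

/-! # Module GEN: genericity from vanishing correlations -/

open MeasureTheory ProbabilityTheory Filter Topology Finset
open scoped ENNReal

namespace Pool.Agent.H74.MT

open Pool.Agent.H89.MT

theorem tendsto_lavg_one : Tendsto (fun N => lavg N fun _ => (1 : ℝ)) atTop (𝓝 1) := by
  have h1 := Real.tendsto_harmonic_sub_log
  have h2 : Tendsto (fun N : ℕ => Real.log (N : ℝ)) atTop atTop :=
    Real.tendsto_log_atTop.comp tendsto_natCast_atTop_atTop
  have h3 : Tendsto (fun N : ℕ => 1 + ((harmonic N : ℝ) - Real.log N) / Real.log N) atTop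
      (𝓝 (1 + 0)) := tendsto_const_nhds.add (h1.div_atTop h2)
  rw [add_zero] at h3
  refine h3.congr' ?_
  filter_upwards [h2.eventually_gt_atTop 0] with N hN
  have h4 : (harmonic N : ℝ) = ∑ n ∈ Icc 1 N, (1 : ℝ) / n := by
    rw [harmonic_eq_sum_Icc]
    push_cast
    exact Finset.sum_congr rfl fun i _ => (one_div _).symm
  unfold lavg
  rw [← h4]
  field_simp
  ring

theorem abs_I1 (a : I1) : |(a : ℝ)| ≤ 1 := abs_le.2 ⟨a.2.1, a.2.2⟩

theorem abs_prod_le (x : X) (H : Finset ℤ) : |∏ j ∈ H, (x j : ℝ)| ≤ 1 := by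
  rw [Finset.abs_prod]
  exact Finset.prod_le_one (fun _ _ => abs_nonneg _) fun j _ => abs_I1 _

theorem cont_prod (H : Finset ℤ) : Continuous fun x : X => ∏ j ∈ H, (x j : ℝ) :=
  continuous_finset_prod _ fun j _ => continuous_subtype_val.comp (continuous_apply j)

theorem pf_GEN (hSHF : T_SHF) (hCYL : T_CYL) (hBER : T_BER) : T_GEN := by
  classical
  intro u hu hcorr F
  have hJ0 := hSHF u hcorr
  rw [Metric.tendsto_atTop]
  intro ε hε
  obtain ⟨J, c, hJ⟩ := hCYL F (ε / 5) (by positivity)
  haveI : IsProbabilityMeasure bern := by unfold bern; infer_instance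
  -- the polynomial
  obtain ⟨P, hPdef⟩ : ∃ P : X → ℝ, P = fun x => ∑ H ∈ J.powerset, c H * ∏ j ∈ H, (x j : ℝ) :=
    ⟨_, rfl⟩
  have hPx : ∀ x, P x = ∑ H ∈ J.powerset, c H * ∏ j ∈ H, (x j : ℝ) := fun x => by rw [hPdef]
  have hPc : Continuous P := by
    rw [hPdef]
    exact continuous_finset_sum _ fun H _ => continuous_const.mul (cont_prod H)
  have hJP : ∀ x : X, (∀ j ∈ J, |(x j : ℝ)| = 1) → |F x - P x| ≤ ε / 5 := fun x hx => by
    rw [hPx]
    exact hJ x hx
  have hbdd : ∃ K : ℝ, 0 ≤ K ∧ ∀ x, |F x - P x| ≤ K := by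
    obtain ⟨K, hK⟩ := isCompact_univ.exists_bound_of_continuousOn
      (f := fun x : X => F x - P x) (F.continuous.sub hPc).continuousOn
    have h0 : 0 ≤ K := (norm_nonneg _).trans (hK (fun _ => z1) (Set.mem_univ _))
    exact ⟨K, h0, fun x => by
      have := hK x (Set.mem_univ _)
      rwa [Real.norm_eq_abs] at this⟩
  obtain ⟨K, hK0, hK⟩ := hbdd
  have hint : ∀ G : X → ℝ, Continuous G → Integrable G bern := by
    intro G hG
    obtain ⟨L, hL⟩ := isCompact_univ.exists_bound_of_continuousOn (f := G) hG.continuousOn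
    exact Integrable.of_bound hG.measurable.aestronglyMeasurable L
      (Eventually.of_forall fun x => hL x (Set.mem_univ _))
  -- the integral
  have hI1 : ∫ x, P x ∂bern = c ∅ := by
    have h1 : ∫ x, P x ∂bern = ∑ H ∈ J.powerset, c H * ∫ x, ∏ j ∈ H, (x j : ℝ) ∂bern := by
      simp only [hPx]
      rw [integral_finset_sum]
      · exact Finset.sum_congr rfl fun H _ => integral_const_mul _ _
      · intro H _
        exact (hint _ (cont_prod H)).const_mul _
    rw [h1, Finset.sum_eq_single_of_mem ∅ (Finset.mem_powerset.2 (Finset.empty_subset _))]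
    · simp
    · intro H _ hH
      rw [hBER.2 H (Finset.nonempty_iff_ne_empty.2 hH), mul_zero]
  have hI2 : |∫ x, F x ∂bern - c ∅| ≤ ε / 5 := by
    rw [← hI1, ← integral_sub (hint F F.continuous) (hint P hPc)]
    have h1 := norm_integral_le_of_norm_le_const (μ := bern) (f := fun x => F x - P x)
      (C := ε / 5) (by
        filter_upwards [hBER.1] with x hx
        rw [Real.norm_eq_abs]
        exact hJP x fun j _ => hx j)
    rw [Real.norm_eq_abs] at h1
    simpa using h1
  -- the averages of the polynomial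
  have hb : Tendsto (fun N => lavg N fun n => P (pt u n)) atTop (𝓝 (c ∅)) := by
    have h1 : ∀ N, lavg N (fun n => P (pt u n)) =
        ∑ H ∈ J.powerset, c H * lavg N fun n => ∏ j ∈ H, (pt u n j : ℝ) := by
      intro N
      unfold lavg
      simp only [hPx]
      have h2 : ∀ n : ℕ, (∑ H ∈ J.powerset, c H * ∏ j ∈ H, (pt u n j : ℝ)) / (n : ℝ) =
          ∑ H ∈ J.powerset, c H * ((∏ j ∈ H, (pt u n j : ℝ)) / (n : ℝ)) := by
        intro n
        rw [Finset.sum_div]
        exact Finset.sum_congr rfl fun H _ => mul_div_assoc _ _ _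
      rw [Finset.sum_congr rfl fun n _ => h2 n, Finset.sum_comm, Finset.sum_div]
      refine Finset.sum_congr rfl fun H _ => ?_
      rw [← Finset.mul_sum, mul_div_assoc]
    simp only [h1]
    have h3 : ∀ H ∈ J.powerset, Tendsto (fun N => c H * lavg N fun n => ∏ j ∈ H, (pt u n j : ℝ))
        atTop (𝓝 (if H = ∅ then c ∅ else 0)) := by
      intro H _
      by_cases hH : H = ∅
      · subst hH
        rw [if_pos rfl]
        simp only [Finset.prod_empty]
        have := tendsto_lavg_one.const_mul (c ∅)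
        rwa [mul_one] at this
      · rw [if_neg hH]
        have := (hJ0 H (Finset.nonempty_iff_ne_empty.2 hH)).const_mul (c H)
        rwa [mul_zero] at this
    have h4 := tendsto_finset_sum _ h3
    rwa [Finset.sum_ite_eq' J.powerset ∅ fun _ => c ∅,
      if_pos (Finset.mem_powerset.2 (Finset.empty_subset _))] at h4
  -- the difference
  obtain ⟨n₀, hn₀⟩ : ∃ n₀ : ℕ, ∀ j ∈ J, |j| < n₀ := by
    refine ⟨(∑ j ∈ J, |j|).toNat + 1, fun j hj => ?_⟩
    have h1 : |j| ≤ ∑ j ∈ J, |j| :=
      Finset.single_le_sum (f := fun j : ℤ => |j|) (fun i _ => abs_nonneg i) hj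
    have h2 := Int.self_le_toNat (∑ j ∈ J, |j|)
    push_cast
    omega
  have hpt : ∀ n, n₀ ≤ n → |F (pt u n) - P (pt u n)| ≤ ε / 5 := by
    intro n hn
    apply hJP
    intro j hj
    have h1 := hn₀ j hj
    have h2 := neg_abs_le j
    have h3 : 0 < (n : ℤ) + j := by omega
    unfold pt
    rw [if_pos h3]
    apply hu
    omega
  have hdiff : ∀ N : ℕ, 0 < Real.log N →
      |lavg N (fun n => F (pt u n)) - lavg N (fun n => P (pt u n))| ≤
        n₀ * K / Real.log N + ε / 5 * lavg N fun _ => 1 := by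
    intro N hN
    have h1 : lavg N (fun n => F (pt u n)) - lavg N (fun n => P (pt u n)) =
        (∑ n ∈ Icc 1 N, (F (pt u n) - P (pt u n)) / n) / Real.log N := by
      unfold lavg
      rw [← sub_div, ← Finset.sum_sub_distrib]
      congr 1
      exact Finset.sum_congr rfl fun n _ => (sub_div _ _ _).symm
    have h2 : |∑ n ∈ Icc 1 N, (F (pt u n) - P (pt u n)) / n| ≤
        n₀ * K + ε / 5 * ∑ n ∈ Icc 1 N, (1 : ℝ) / n := by
      have h3 : ∀ n ∈ Icc 1 N, |(F (pt u n) - P (pt u n)) / n| ≤
          (if n < n₀ then K else 0) + ε / 5 * (1 / n) := by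
        intro n hn
        have hn1 : (1 : ℝ) ≤ n := by exact_mod_cast (Finset.mem_Icc.1 hn).1
        have hn0 : (0 : ℝ) < n := by linarith
        rw [abs_div, abs_of_pos hn0]
        have h5 : 0 ≤ ε / 5 * (1 / (n : ℝ)) := by positivity
        by_cases hlt : n < n₀
        · rw [if_pos hlt]
          have h4 : |F (pt u n) - P (pt u n)| / n ≤ K / 1 :=
            div_le_div₀ hK0 (hK _) one_pos hn1
          rw [div_one] at h4
          linarith
        · rw [if_neg hlt, zero_add, mul_one_div]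
          exact div_le_div_of_nonneg_right (hpt n (not_lt.1 hlt)) hn0.le
      refine (Finset.abs_sum_le_sum_abs _ _).trans ((Finset.sum_le_sum h3).trans ?_)
      rw [Finset.sum_add_distrib, ← Finset.mul_sum]
      have h6 : ∑ n ∈ Icc 1 N, (if n < n₀ then K else 0) ≤ n₀ * K := by
        rw [← Finset.sum_filter]
        calc ∑ n ∈ Icc 1 N with n < n₀, K ≤ ∑ n ∈ range n₀, K := by
              apply Finset.sum_le_sum_of_subset_of_nonneg
              · intro n hn
                exact Finset.mem_range.2 (Finset.mem_filter.1 hn).2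
              · intro _ _ _
                exact hK0
          _ = n₀ * K := by simp
      linarith
    rw [h1, abs_div, abs_of_pos hN]
    refine (div_le_div_of_nonneg_right h2 hN.le).trans (le_of_eq ?_)
    unfold lavg
    rw [add_div, mul_div_assoc (ε / 5)]
  have hlog : Tendsto (fun N : ℕ => Real.log (N : ℝ)) atTop atTop :=
    Real.tendsto_log_atTop.comp tendsto_natCast_atTop_atTop
  have hd : Tendsto (fun N : ℕ => n₀ * K / Real.log N + ε / 5 * lavg N fun _ => 1) atTop
      (𝓝 (0 + ε / 5 * 1)) :=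
    (hlog.const_div_atTop _).add (tendsto_lavg_one.const_mul _)
  have hd' : ∀ᶠ N : ℕ in atTop, n₀ * K / Real.log N + ε / 5 * (lavg N fun _ => 1) < 2 * ε / 5 :=
    hd (Iio_mem_nhds (by linarith))
  have hb' : ∀ᶠ N : ℕ in atTop, |lavg N (fun n => P (pt u n)) - c ∅| < ε / 5 := by
    have := (Metric.tendsto_nhds.1 hb) (ε / 5) (by positivity)
    simpa only [Real.dist_eq] using this
  obtain ⟨N₀, hN₀⟩ := Filter.eventually_atTop.1 (hd'.and (hb'.and (hlog.eventually_gt_atTop 0)))
  refine ⟨N₀, fun N hN => ?_⟩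
  obtain ⟨e1, e2, e3⟩ := hN₀ N hN
  have e4 := hdiff N e3
  rw [Real.dist_eq]
  have e5 : lavg N (fun n => F (pt u n)) - ∫ x, F x ∂bern =
      (lavg N (fun n => F (pt u n)) - lavg N (fun n => P (pt u n))) +
        (lavg N (fun n => P (pt u n)) - c ∅) - (∫ x, F x ∂bern - c ∅) := by ring
  rw [e5]
  refine lt_of_le_of_lt ((abs_sub _ _).trans (add_le_add (abs_add_le _ _) le_rfl)) ?_
  linarith

end Pool.Agent.H74.MT
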