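import Pool.Agent.H89.MT.Targets

/-! # Module UNQ: uniqueness of the Furstenberg system -/

open MeasureTheory ProbabilityTheory Filter Topology Finset
open scoped ENNReal

namespace Pool.Agent.H74.MT

open Pool.Agent.H89.MT

theorem pf_UNQ : T_UNQ := by
  intro u κ hκ hgen κ'
  constructor
  · rintro ⟨hκ', N, hN, hF⟩
    have h1 : ∀ F : C(X, ℝ), ∫ x, F x ∂κ' = ∫ x, F x ∂κ := fun F =>
      tendsto_nhds_unique (hF F) ((hgen F).comp hN)
    apply ext_of_forall_integral_eq_of_IsFiniteMeasure
    intro f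
    exact h1 f.toContinuousMap
  · rintro rfl
    exact ⟨hκ, id, tendsto_id, fun F => hgen F⟩

end Pool.Agent.H74.MT
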