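import Pool.Agent.H89.MT.Targets

/-! # Module CYL: approximation by polynomials -/

open MeasureTheory ProbabilityTheory Filter Topology Finset
open scoped ENNReal

namespace Pool.Agent.H74.MT

open Pool.Agent.H89.MT

theorem exists_coord (F : C(X, ℝ)) (ε : ℝ) (hε : 0 < ε) :
    ∃ J : Finset ℤ, ∀ x y : X, (∀ j ∈ J, x j = y j) → |F x - F y| ≤ ε := by
  have hF : UniformContinuous F := CompactSpace.uniformContinuous_of_continuous F.continuous
  have h1 : {p : X × X | dist (F p.1) (F p.2) < ε} ∈ uniformity X :=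
    hF (Metric.dist_mem_uniformity hε)
  rw [Pi.uniformity, Filter.mem_iInf] at h1
  obtain ⟨I, hI, V, hV, hVe⟩ := h1
  refine ⟨hI.toFinset, fun x y hxy => ?_⟩
  have h2 : (x, y) ∈ {p : X × X | dist (F p.1) (F p.2) < ε} := by
    rw [hVe]
    refine Set.mem_iInter.2 fun i => ?_
    obtain ⟨t, ht, htV⟩ := Filter.mem_comap.1 (hV i)
    apply htV
    have h3 : x i = y i := hxy i (hI.mem_toFinset.2 i.2)
    change (x i, y i) ∈ t
    rw [h3]
    exact refl_mem_uniformity ht
  have h4 : dist (F x) (F y) < ε := h2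
  rw [Real.dist_eq] at h4
  exact h4.le

/-- the sign -/
noncomputable def sg (B : Finset ℤ) (j : ℤ) : ℝ := if j ∈ B then -1 else 1

/-- the point with the coordinates `-1` on `B` -/
noncomputable def xB (B : Finset ℤ) : X := fun j => if j ∈ B then m1 else o1

theorem sum_signs (J A : Finset ℤ) (hA : A ⊆ J) (f : Finset ℤ → ℝ) :
    ∑ B ∈ J.powerset, f B * ∑ H ∈ J.powerset, (∏ j ∈ H, sg B j) * ∏ j ∈ H, sg A j =
      2 ^ J.card * f A := by
  rw [Finset.sum_eq_single_of_mem A (Finset.mem_powerset.2 hA)]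
  · have h1 : ∑ H ∈ J.powerset, (∏ j ∈ H, sg A j) * ∏ j ∈ H, sg A j = 2 ^ J.card := by
      have h2 : ∀ H ∈ J.powerset, (∏ j ∈ H, sg A j) * ∏ j ∈ H, sg A j = 1 := by
        intro H _
        rw [← Finset.prod_mul_distrib]
        apply Finset.prod_eq_one
        intro j _
        unfold sg
        split_ifs <;> norm_num
      rw [Finset.sum_congr rfl h2, Finset.sum_const, Finset.card_powerset]
      simp
    rw [h1, mul_comm]
  · intro B hB hBA
    have hBJ := Finset.mem_powerset.1 hB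
    have h1 : ∑ H ∈ J.powerset, (∏ j ∈ H, sg B j) * ∏ j ∈ H, sg A j = 0 := by
      have h2 : ∑ H ∈ J.powerset, (∏ j ∈ H, sg B j) * ∏ j ∈ H, sg A j =
          ∏ j ∈ J, (1 + sg B j * sg A j) := by
        rw [Finset.prod_one_add]
        exact Finset.sum_congr rfl fun H _ => (Finset.prod_mul_distrib).symm
      rw [h2]
      have h3 : ∃ j ∈ J, ¬ (j ∈ B ↔ j ∈ A) := by
        by_contra h
        push Not at h
        apply hBA
        ext j
        by_cases hj : j ∈ J
        · exact h j hj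
        · exact ⟨fun hb => absurd (hBJ hb) hj, fun ha => absurd (hA ha) hj⟩
      obtain ⟨j, hj, hne⟩ := h3
      apply Finset.prod_eq_zero hj
      unfold sg
      by_cases hb : j ∈ B <;> by_cases ha : j ∈ A
      · exact absurd (iff_of_true hb ha) hne
      · rw [if_pos hb, if_neg ha]; norm_num
      · rw [if_neg hb, if_pos ha]; norm_num
      · exact absurd (iff_of_false hb ha) hne
    rw [h1, mul_zero]

theorem pf_CYL : T_CYL := by
  classical
  intro F ε hε
  obtain ⟨J, hJ⟩ := exists_coord F ε hε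
  refine ⟨J, fun H => (2 ^ J.card)⁻¹ * ∑ B ∈ J.powerset, F (xB B) * ∏ j ∈ H, sg B j,
    fun x hx => ?_⟩
  obtain ⟨A, hA⟩ : ∃ A, A = J.filter fun j => (x j : ℝ) = -1 := ⟨_, rfl⟩
  have hAJ : A ⊆ J := by
    rw [hA]
    exact Finset.filter_subset _ _
  have hsg : ∀ j ∈ J, (x j : ℝ) = sg A j := by
    intro j hj
    unfold sg
    have h1 := hx j hj
    by_cases hm : (x j : ℝ) = -1
    · rw [if_pos]
      · exact hm
      · rw [hA]
        exact Finset.mem_filter.2 ⟨hj, hm⟩
    · rw [if_neg]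
      · rcases abs_eq (zero_le_one' ℝ) |>.1 h1 with h | h
        · exact h
        · exact absurd h hm
      · rw [hA]
        intro h
        exact hm (Finset.mem_filter.1 h).2
  have h1 : ∑ H ∈ J.powerset, ((2 ^ J.card)⁻¹ * ∑ B ∈ J.powerset, F (xB B) * ∏ j ∈ H, sg B j) *
      ∏ j ∈ H, (x j : ℝ) = F (xB A) := by
    have h2 : ∀ H ∈ J.powerset, ((2 ^ J.card)⁻¹ * ∑ B ∈ J.powerset, F (xB B) * ∏ j ∈ H, sg B j) *
        ∏ j ∈ H, (x j : ℝ) = (2 ^ J.card)⁻¹ * ∑ B ∈ J.powerset, F (xB B) *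
          ((∏ j ∈ H, sg B j) * ∏ j ∈ H, sg A j) := by
      intro H hH
      have hHJ := Finset.mem_powerset.1 hH
      have h3 : ∏ j ∈ H, (x j : ℝ) = ∏ j ∈ H, sg A j :=
        Finset.prod_congr rfl fun j hj => hsg j (hHJ hj)
      rw [h3, mul_assoc, Finset.sum_mul]
      congr 1
      exact Finset.sum_congr rfl fun B _ => mul_assoc _ _ _
    rw [Finset.sum_congr rfl h2, ← Finset.mul_sum, Finset.sum_comm]
    have h4 : ∑ B ∈ J.powerset, ∑ H ∈ J.powerset, F (xB B) *
        ((∏ j ∈ H, sg B j) * ∏ j ∈ H, sg A j) = 2 ^ J.card * F (xB A) := by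
      rw [← sum_signs J A hAJ fun B => F (xB B)]
      exact Finset.sum_congr rfl fun B _ => (Finset.mul_sum _ _ _).symm
    rw [h4, ← mul_assoc, inv_mul_cancel₀ (by positivity), one_mul]
  rw [h1]
  apply hJ
  intro j hj
  apply Subtype.ext
  rw [hsg j hj]
  unfold sg xB
  by_cases h : j ∈ A
  · rw [if_pos h, if_pos h]
    rfl
  · rw [if_neg h, if_neg h]
    rfl

end Pool.Agent.H74.MT
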